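import Pool.Agent.Lib.MP_63ed06_co.Sharp

/-!
Strict form of the counting bound, and shifting that keeps a property of chains which is invariant
under transpositions.
-/

namespace Pool.Agent.FS.AllOpt

open Finset Pool.Agent.Lib.MP_63ed06_co

theorem core_lt {S : ℝ} (hS1 : 1 ≤ S)
    (hS : ∀ n, ∑ i ∈ range n, ((i : ℝ) + 1) ^ 3 * (9 / 10) ^ i ≤ S) {N s t : ℕ} (ht : 1 ≤ t)
    (hN : 0 < N) (hM : (540 * S) ^ 2 * N ≤ (((s + t : ℕ) : ℝ) + 1) ^ 2) (K : Finset ℕ)
    (hK : K.card = s) (𝒯 : Finset (Finset ℕ)) (h1 : ∀ T ∈ 𝒯, T ⊆ Ioo 0 N)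
    (h2 : ∀ T ∈ 𝒯, (Ioo 0 N \ T).card ≤ s) (h3 : ∀ T ∈ 𝒯, ((Ioo 0 N \ T) \ K).card ≤ t) :
    ∑ T ∈ 𝒯, (cnt T 0 N).card < fub (s + t + 1) := by
  classical
  have hN1 : (1 : ℝ) ≤ N := by exact_mod_cast hN
  set A : ℝ := ((s + t : ℕ) : ℝ) + 1 with hA
  have hA0 : 0 < A := by positivity
  have hA1 : 540 * S ≤ A := le_of_pow_le_pow_left₀ two_ne_zero (by positivity)
    ((le_mul_of_one_le_right (by positivity) hN1).trans hM)
  have hNle : N ≤ (s + t + 1) ^ 2 := by
    have h4 : (1 : ℝ) ≤ (540 * S) ^ 2 := one_le_pow₀ (by linarith)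
    have h5 : (N : ℝ) ≤ A ^ 2 := (le_mul_of_one_le_left (by positivity) h4).trans hM
    rw [hA] at h5
    exact_mod_cast h5
  set x : ℝ := 18 / 5 / A with hx
  set y : ℝ := 3 * (114 * S) / A with hy
  have hx0 : 0 ≤ x := by positivity
  have hy0 : 0 ≤ y := by positivity
  have hx1 : x ≤ 1 := by
    rw [hx, div_le_one hA0]
    linarith
  have hy1 : y ≤ 1 := by
    rw [hy, div_le_one hA0]
    linarith
  have hF : (0 : ℝ) < fub (s + t + 1) := by exact_mod_cast fub_pos _
  choose! q hq using fun T (hT : T ∈ 𝒯) => decomp_main N hN T (h1 T hT)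
  let g : (ℕ × ℕ) × Finset (ℕ × ℕ) → ℝ := fun r => fub (s + t + 1) * (5 / 6) ^ (s - r.1.2) *
    (1 / (114 * S)) ^ t * ∏ p ∈ r.2, phi x y (K \ iv r.1) p
  have hg : ∀ r, 0 ≤ g r := fun r =>
    mul_nonneg (by positivity) (prod_nonneg fun p _ => phi_nonneg hx0 hy0 _ p)
  let V : Finset (ℕ × ℕ) := (range N ×ˢ range (s + 1)).filter fun p => (iv p \ K).card ≤ t
  have hcard : ∀ T ∈ 𝒯, (q T).1.2 + ∑ p ∈ (q T).2, p.2 ≤ s := by
    intro T hT
    obtain ⟨-, h5, h6, h7, -⟩ := hq T hT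
    have h8 := h2 T hT
    rw [← h7, card_union_of_disjoint ((disjoint_biUnion_right _ _ _).mpr fun p hp => (h5 p hp).2.2.2),
      card_iv, card_biUnion h6] at h8
    simpa only [card_iv] using h8
  have hmem : ∀ T ∈ 𝒯, q T ∈ V ×ˢ (shorts N (s + t)).powerset := by
    intro T hT
    have h4 := hcard T hT
    obtain ⟨h0, h5, -, h7, -⟩ := hq T hT
    refine mem_product.mpr ⟨mem_filter.mpr ⟨mem_product.mpr ⟨mem_range.mpr h0,
      mem_range.mpr (by omega)⟩, le_trans (card_le_card ?_) (h3 T hT)⟩,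
      mem_powerset.mpr fun p hp => ?_⟩
    · rw [← h7]
      exact sdiff_subset_sdiff subset_union_left Subset.rfl
    · have h8 := h5 p hp
      have h9 : p.2 ≤ ∑ p ∈ (q T).2, p.2 :=
        single_le_sum (f := fun p : ℕ × ℕ => p.2) (fun _ _ => Nat.zero_le _) hp
      exact mem_product.mpr ⟨mem_range.mpr h8.2.2.1, mem_filter.mpr ⟨mem_range.mpr (by omega),
        h8.1, by omega⟩⟩
  have hle : ∀ T ∈ 𝒯, ((cnt T 0 N).card : ℝ) ≤ g (q T) := by
    intro T hT
    have h4 := hcard T hT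
    obtain ⟨-, h5, h6, h7, h8⟩ := hq T hT
    have h9 : (q T).1.2 + (s - (q T).1.2) + t + 1 = s + t + 1 := by omega
    have h10 := single_bound (j := s - (q T).1.2) (t := t) (Y := 114 * S) (A := A) (q T).2
      (K \ iv (q T).1) (by rw [h9, hA]; push_cast; ring) (by positivity) hx hy hx1 hy1 h8
      (by omega) ?_
    · rwa [h9] at h10
    · rw [← card_biUnion (h6.mono fun p => sdiff_subset)]
      refine le_trans (card_le_card fun z hz => ?_) (h3 T hT)
      obtain ⟨p, hp, hz⟩ := mem_biUnion.mp hz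
      rw [mem_sdiff, mem_sdiff, not_and, not_not] at hz
      rw [← h7]
      exact mem_sdiff.mpr ⟨mem_union_right _ (mem_biUnion.mpr ⟨p, hp, hz.1⟩),
        fun h => disjoint_left.mp (h5 p hp).2.2.2 (hz.2 h) hz.1⟩
  have hinj : Set.InjOn q 𝒯 := by
    intro T hT T' hT' h
    rw [← Finset.sdiff_sdiff_eq_self (h1 T hT), ← (hq T hT).2.2.2.1, h, (hq T' hT').2.2.2.1,
      Finset.sdiff_sdiff_eq_self (h1 T' hT')]
  let G : ℕ → ℝ := fun l => fub (s + t + 1) *
    ((5 / 6) ^ (s - l) * (1 / (114 * S)) ^ t * (3 * (21 / 20) ^ (s - l + t)))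
  have hG : ∀ l, 0 ≤ G l := fun l => by positivity
  have key : (∑ T ∈ 𝒯, ((cnt T 0 N).card : ℝ)) < fub (s + t + 1) := by
    calc _ ≤ ∑ T ∈ 𝒯, g (q T) := sum_le_sum hle
      _ = ∑ r ∈ 𝒯.image q, g r := (sum_image hinj).symm
      _ ≤ ∑ r ∈ V ×ˢ (shorts N (s + t)).powerset, g r :=
          sum_le_sum_of_subset_of_nonneg (image_subset_iff.mpr hmem) fun r _ _ => hg r
      _ ≤ ∑ p ∈ V, G p.2 := by
          rw [sum_product]
          refine sum_le_sum fun p hp => ?_
          have h4 := mem_filter.mp hp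
          have h5 := mem_range.mp (mem_product.mp h4.1).2
          have h6 := fiber_bound hS1 hS hN hM (K \ iv p)
            (card_rest (j := s - p.2) (by omega) h4.2)
          simp only [g, G]
          rw [← mul_sum, mul_assoc, mul_assoc, mul_assoc]
          gcongr
      _ ≤ ∑ l ∈ range (s + 1), fub (s + t + 1) * (567 / 5 / (114 * S) *
            ((((s - l : ℕ) : ℝ) + 1) ^ 3 * (9 / 10) ^ (s - l))) := by
          rw [sum_filter, sum_product_right]
          refine sum_le_sum fun l hl => ?_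
          have h4 := mem_range.mp hl
          have h5 := card_main N l (s - l) t K (by omega)
            (by rwa [show l + (s - l) + t + 1 = s + t + 1 by omega])
          have h6 : ((((range N).filter fun u => (iv (u, l) \ K).card ≤ t).card : ℕ) : ℝ)
              ≤ 9 * (((s - l : ℕ) : ℝ) + t + 1) ^ 2 := by exact_mod_cast h5
          have h7 := level_bound (Y := 114 * S) (by linarith) (s - l) t ht
          rw [← sum_filter]
          simp only [sum_const, nsmul_eq_mul]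
          refine (mul_le_mul_of_nonneg_right h6 (hG l)).trans ?_
          simp only [G]
          rw [mul_left_comm]
          exact mul_le_mul_of_nonneg_left h7 hF.le
      _ ≤ fub (s + t + 1) * (567 / 5 / (114 * S) * S) := by
          rw [← mul_sum, ← mul_sum]
          have h4 := sum_range_reflect (fun i : ℕ => ((i : ℝ) + 1) ^ 3 * (9 / 10) ^ i) (s + 1)
          simp only [Nat.add_sub_cancel] at h4
          rw [h4]
          gcongr
          exact hS _
      _ < _ := by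
          refine mul_lt_of_lt_one_right hF (lt_of_eq_of_lt (b := 567 / 570) ?_ (by norm_num))
          field_simp
          norm_num
  exact_mod_cast key

lemma shifted_with {n d : ℕ} {G : Finset (Finset (Finset ℕ))} (hG : DIntersecting n d G)
    (P : Finset (Finset ℕ) → Prop) (hP : ∀ i j C, P C → P (C.image (sw i j)))
    (hGP : ∀ C ∈ G, P C) :
    ∃ F, DIntersecting n d F ∧ (F.card = G.card ∧ ∀ C ∈ F, P C) ∧ ∀ i j, i < j → i ∈ Icc 1 n → j ∈ Icc 1 n →
      ∀ C ∈ F, ∀ A ∈ C, j ∈ A → i ∉ A → C.image (sw i j) ∈ F := by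
  classical
  have hex : ∃ p, ∃ F, DIntersecting n d F ∧ (F.card = G.card ∧ ∀ C ∈ F, P C) ∧
      ∑ C ∈ F, pot C = p := ⟨_, G, hG, ⟨rfl, hGP⟩, rfl⟩
  obtain ⟨F, hF, hc, hp⟩ := Nat.find_spec hex
  refine ⟨F, hF, hc, fun i j hij hi hj C₀ hC₀ A₀ hA₀ hj₀ hi₀ => ?_⟩
  by_contra hno
  let mv : Finset (Finset ℕ) → Prop := fun C => (∃ A ∈ C, j ∈ A ∧ i ∉ A) ∧ C.image (sw i j) ∉ F
  let sh : Finset (Finset ℕ) → Finset (Finset ℕ) := fun C => if mv C then C.image (sw i j) else C
  have hinj : Set.InjOn sh F := by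
    intro C hC C' hC' h
    simp only [sh] at h
    split_ifs at h with h1 h2 h2
    · rw [← image_sw_sw i j C, h, image_sw_sw]
    · exact absurd (h ▸ hC') h1.2
    · exact absurd (h ▸ hC) h2.2
    · exact h
  have hone : ∀ C ∈ F, ∀ C' ∈ F, mv C → ¬ mv C' → d ≤ (C.image (sw i j) ∩ C').card := by
    intro C hC C' hC' h1 h2
    by_cases h3 : C'.image (sw i j) ∈ F
    · rw [card_inter_sw]
      exact hF.2 _ hC _ h3
    · refine (hF.2 _ hC _ hC').trans (card_le_card fun B hB => ?_)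
      rw [mem_inter] at hB ⊢
      refine ⟨mem_image_sw.mpr ?_, hB.2⟩
      obtain ⟨A, hA, hjA, hiA⟩ := h1.1
      rw [sw_eq_self]
      · exact hB.1
      · refine ⟨no_rev (hF.1 C hC) hA hjA hiA hB.1, fun h4 => ?_⟩
        by_contra h5
        exact h2 ⟨⟨B, hB.2, h4, h5⟩, h3⟩
  have hF' : DIntersecting n d (F.image sh) := by
    constructor
    · intro D hD
      obtain ⟨C, hC, rfl⟩ := mem_image.mp hD
      simp only [sh]
      split_ifs
      · exact (hF.1 C hC).sw hi hj
      · exact hF.1 C hC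
    · intro D hD D' hD'
      obtain ⟨C, hC, rfl⟩ := mem_image.mp hD
      obtain ⟨C', hC', rfl⟩ := mem_image.mp hD'
      simp only [sh]
      split_ifs with h1 h2 h2
      · rw [card_inter_sw, image_sw_sw]
        exact hF.2 _ hC _ hC'
      · exact hone _ hC _ hC' h1 h2
      · rw [inter_comm]
        exact hone _ hC' _ hC h2 h1
      · exact hF.2 _ hC _ hC'
  have hP' : ∀ D ∈ F.image sh, P D := by
    intro D hD
    obtain ⟨C, hC, rfl⟩ := mem_image.mp hD
    simp only [sh]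
    split_ifs
    · exact hP _ _ _ (hc.2 C hC)
    · exact hc.2 C hC
  have h1 := Nat.find_min' hex ⟨_, hF', ⟨(card_image_of_injOn hinj).trans hc.1, hP'⟩, rfl⟩
  rw [← hp, sum_image hinj] at h1
  refine absurd h1 (not_le.mpr (sum_lt_sum (fun C hC => ?_) ⟨C₀, hC₀, ?_⟩))
  · simp only [sh]
    split_ifs with h
    · obtain ⟨A, hA, h2, h3⟩ := h.1
      exact (pot_sw_lt hij (hF.1 C hC) hA h2 h3).le
    · rfl
  · have : mv C₀ := ⟨⟨A₀, hA₀, hj₀, hi₀⟩, hno⟩
    simp only [sh, if_pos this]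
    exact pot_sw_lt hij (hF.1 C₀ hC₀) hA₀ hj₀ hi₀

theorem strong_with {n d : ℕ} {G : Finset (Finset (Finset ℕ))} (hG : DIntersecting n d G)
    (P : Finset (Finset ℕ) → Prop) (hP : ∀ i j C, P C → P (C.image (sw i j)))
    (hGP : ∀ C ∈ G, P C) :
    ∃ F, DIntersecting n d F ∧ (F.card = G.card ∧ ∀ C ∈ F, P C) ∧
      ∀ C ∈ F, ∀ C' ∈ F, d ≤ (seg n C ∩ seg n C').card := by
  obtain ⟨F, hF, hc, hs⟩ := shifted_with hG P hP hGP
  refine ⟨F, hF, hc, ?_⟩
  have key : ∀ r, ∀ C ∈ F, ∀ C' ∈ F, (C ∩ C').card = r → d ≤ (seg n C ∩ seg n C').card := by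
    intro r
    induction r using Nat.strong_induction_on with
    | _ r ih =>
      intro C hC C' hC' hr
      by_cases hall : ∀ A ∈ C ∩ C', ∃ k ≤ n, A = Icc 1 k
      · refine (hF.2 _ hC _ hC').trans (le_trans (card_le_card ?_)
          (card_image_le (s := seg n C ∩ seg n C') (f := fun k => Icc 1 k)))
        intro A hA
        obtain ⟨k, hk, rfl⟩ := hall A hA
        rw [mem_inter] at hA
        exact mem_image.mpr ⟨k, by simp [seg, hA.1, hA.2]; omega, rfl⟩
      · push Not at hall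
        obtain ⟨A, hA, hA'⟩ := hall
        have hA1 := mem_inter.mp hA
        have hsub := (hF.1 C hC).2.1 A hA1.1
        obtain ⟨i, j, hij, hi, hj, hi'⟩ := exists_gap hsub hA'
        have h1 := hs i j hij hi (hsub hj) C hC A hA1.1 hj hi'
        have h2 : C.image (sw i j) ∩ C' ⊆ (C ∩ C').erase A := by
          intro B hB
          rw [mem_inter, mem_image_sw] at hB
          have h3 : i ∈ B ↔ j ∈ B := by
            refine ⟨no_rev (hF.1 C' hC') hA1.2 hj hi' hB.2, fun h4 => ?_⟩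
            have h5 := no_rev (hF.1 C hC) hA1.1 hj hi' hB.1 (mem_sw.mpr (by simpa using h4))
            simpa [mem_sw] using h5
          rw [sw_eq_self h3] at hB
          refine mem_erase.mpr ⟨?_, mem_inter.mpr hB⟩
          rintro rfl
          exact hi' (h3.mpr hj)
        have h3 := card_le_card h2
        rw [card_erase_of_mem hA] at h3
        have h4 : 0 < (C ∩ C').card := card_pos.mpr ⟨A, hA⟩
        refine (ih _ (by omega) _ h1 _ hC' rfl).trans (card_le_card fun k hk => ?_)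
        simp only [seg, mem_inter, mem_filter] at hk ⊢
        have h5 := mem_inter.mp (mem_of_mem_erase (h2 (mem_inter.mpr ⟨hk.1.2, hk.2.2⟩)))
        exact ⟨⟨hk.1.1, h5.1⟩, hk.2⟩
  exact fun C hC C' hC' => key _ C hC C' hC' rfl

end Pool.Agent.FS.AllOpt
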