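import Pool.Agent.FS.AllOpt.Base
import Pool.Agent.Lib.MP_63ed06_co.Frankl

/-!
Every optimal family consists of the chains through `d` fixed sets of an extremal shape.
-/

namespace Pool.Agent.FS.AllOpt

open Finset Pool.Agent.Lib.MP_63ed06_co

lemma common_le' {n : ℕ} {F : Finset (Finset (Finset ℕ))} (hF : ∀ C ∈ F, IsChainIn n C)
    (W : Finset (Finset ℕ)) (hW : ∀ C ∈ F, W ⊆ C) : F.card ≤ fub (n + 2 - W.card) := by
  rcases F.eq_empty_or_nonempty with rfl | hne
  · simp
  · exact common_le hF hne W hW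

lemma two_le {n : ℕ} {F : Finset (Finset (Finset ℕ))} (hF : ∀ C ∈ F, IsChainIn n C)
    (W : Finset (Finset ℕ)) (hW : ∀ C ∈ F, W ⊆ C) (E : Finset ℕ) (hE : E ∉ W)
    (h : ∀ C, IsChainIn n C → IsChainIn n (insert E C)) :
    F.card ≤ 2 * fub (n + 1 - W.card) := by
  classical
  have e : n + 2 - (insert E W).card = n + 1 - W.card := by
    rw [card_insert_of_notMem hE]; omega
  have h1 := common_le' (F := F.filter (E ∈ ·)) (fun C hC => hF C (mem_filter.mp hC).1)
    (insert E W) fun C hC => insert_subset (mem_filter.mp hC).2 (hW C (mem_filter.mp hC).1)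
  have h2 := common_le' (n := n) (F := (F.filter (E ∉ ·)).image (insert E)) (fun D hD => by
      obtain ⟨C, hC, rfl⟩ := mem_image.mp hD
      exact h C (hF C (mem_filter.mp hC).1)) (insert E W) fun D hD => by
      obtain ⟨C, hC, rfl⟩ := mem_image.mp hD
      exact insert_subset_insert _ (hW C (mem_filter.mp hC).1)
  rw [card_image_of_injOn fun C hC C' hC' he => by
    rw [← erase_insert (mem_filter.mp hC).2, he, erase_insert (mem_filter.mp hC').2]] at h2
  have h3 := card_filter_add_card_filter_not (s := F) (E ∈ ·)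
  rw [e] at h1 h2
  omega

lemma sizes_sw (i j : ℕ) (C : Finset (Finset ℕ)) :
    (C.image (sw i j)).image card = C.image card := by
  rw [image_image]
  exact image_congr fun A _ => card_image_of_injective _ (Equiv.swap i j).injective

theorem small_member : ∃ K : ℝ, 1 ≤ K ∧ ∀ n d : ℕ, 1 ≤ d → d + 8 ≤ n →
    K ^ 2 * (n + 2) ≤ ((n : ℝ) - d + 2) ^ 2 → ∀ G, DIntersecting n d G →
    fub (n - d + 2) ≤ G.card → ∃ C ∈ G, C.card = d ∧ ∀ u s v, u < s → s < v → v ≤ n →
      u ∉ C.image card → v ∉ C.image card → s ∉ C.image card := by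
  classical
  obtain ⟨S, hS1, hS⟩ := exists_S
  refine ⟨540 * S, by linarith, fun n d hd1 hd8 hM G hG hcard => ?_⟩
  have hd : d ≤ n := by omega
  by_contra hno
  obtain ⟨F, hF, ⟨hc, hP⟩, hs⟩ := strong_with hG (fun C => ¬ (C.card = d ∧ ∀ u s v, u < s → s < v →
      v ≤ n → u ∉ C.image card → v ∉ C.image card → s ∉ C.image card))
    (fun i j C h => by rwa [sizes_sw, card_image_of_injective _ (sw_inj i j)])
    fun C hC h => hno ⟨C, hC, h⟩
  rw [← hc] at hcard
  have hne : F.Nonempty := card_pos.mp ((fub_pos _).trans_le hcard)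
  obtain ⟨C₀, hC₀, hmin⟩ := exists_min_image F (fun C => (seg n C).card) hne
  have h0 : d ≤ (seg n C₀).card := by simpa using hs C₀ hC₀ C₀ hC₀
  rcases h0.eq_or_lt with h0 | h0
  · have h1 : ∀ C ∈ F, seg n C₀ ⊆ seg n C := by
      intro C hC
      rw [← eq_of_subset_of_card_le inter_subset_left (h0.ge.trans (hs C₀ hC₀ C hC))]
      exact inter_subset_right
    obtain ⟨W, hWd⟩ : ∃ W, W = (seg n C₀).image fun k => Icc 1 k := ⟨_, rfl⟩
    have w1 : W.card = d := by rw [hWd, card_image_of_injective _ icc_inj, ← h0]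
    have w2 : ∀ C ∈ F, W ⊆ C := fun C hC A hA => by
      rw [hWd] at hA
      obtain ⟨k, hk, rfl⟩ := mem_image.mp hA
      exact (mem_filter.mp (h1 C hC hk)).2
    have w3 : W.image card = seg n C₀ := by
      rw [hWd, image_image]
      exact (image_congr fun k _ => by simp).trans image_id
    have w4 : IsChainIn n W := ⟨card_pos.mp (by omega), fun A hA => (hF.1 _ hC₀).2.1 A (w2 _ hC₀ hA),
      fun A hA B hB => (hF.1 _ hC₀).2.2 A (w2 _ hC₀ hA) B (w2 _ hC₀ hB)⟩
    have w5 : W ∈ F := by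
      by_contra hW
      have h2 := common_le' (n := n) (F := insert W F) (fun C hC => by
        rcases mem_insert.mp hC with rfl | hC
        exacts [w4, hF.1 C hC]) W fun C hC => by
        rcases mem_insert.mp hC with rfl | hC
        exacts [Subset.rfl, w2 C hC]
      rw [card_insert_of_notMem hW, w1, show n + 2 - d = n - d + 2 by omega] at h2
      omega
    refine hP W w5 ⟨w1, fun u s v hus hsv hv hu' hv' hs' => ?_⟩
    rw [w3] at hu' hv' hs'
    have m : ∀ k, k + 1 ∈ (seg n C₀).image (· + 1) ↔ k ∈ seg n C₀ := fun k =>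
      (add_left_injective 1).mem_finset_image
    have h2 := (le_cnt hF.1 _ h1).trans (cnt_le' _ 0 _ (n - d + 1) (succ_sub (seg_sub _ _))
      (by rw [card_succ, ← h0]; omega) (u + 1) (s + 1) (v + 1) (by omega) (by omega) (by omega)
      (by omega) (mt (m u).mp hu') ((m s).mpr hs') (mt (m v).mp hv'))
    have h3 := fub_succ_ge (n - d + 1)
    have h4 := Nat.mul_lt_mul_of_pos_right (show 8 < n - d + 1 + 1 by omega) (fub_pos (n - d + 1))
    rw [show n - d + 1 + 1 = n - d + 2 from rfl] at h3 h4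
    omega
  let τ : Finset (Finset ℕ) → Finset ℕ := fun C => (seg n C).image (· + 1)
  have h1 : ∀ C, τ C ⊆ Ioo 0 (n + 2) := fun C => succ_sub (seg_sub _ _)
  have h2 : ∀ C, (Ioo 0 (n + 2) \ τ C).card = n + 1 - (seg n C).card := fun C => by
    rw [card_sdiff_of_subset (h1 C), card_succ, Nat.card_Ioo]
    omega
  have h3 : (seg n C₀).card ≤ n + 1 := by simpa using card_le_card (seg_sub n C₀)
  have h4 : n + 1 - (seg n C₀).card + ((seg n C₀).card - d) + 1 = n - d + 2 := by omega
  have h5 := core_lt hS1 hS (N := n + 2) (s := n + 1 - (seg n C₀).card)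
    (t := (seg n C₀).card - d) (by omega) (by omega) ?_ _ (h2 C₀) (F.image τ) ?_ ?_ ?_
  · rw [card_eq_sum_card_image τ F, ← h4] at hcard
    refine absurd (lt_of_le_of_lt (sum_le_sum fun T hT => ?_) h5) (not_lt.mpr hcard)
    obtain ⟨C₁, -, rfl⟩ := mem_image.mp hT
    exact le_cnt (fun C hC => hF.1 C (mem_filter.mp hC).1) _ fun C hC =>
      (image_injective (add_left_injective 1) (mem_filter.mp hC).2).ge
  · have h6 : n + 1 - (seg n C₀).card + ((seg n C₀).card - d) = n - d + 1 := by omega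
    rw [h6]
    push_cast [Nat.cast_sub hd]
    refine hM.trans (le_of_eq ?_)
    ring
  · intro T hT
    obtain ⟨C, -, rfl⟩ := mem_image.mp hT
    exact h1 C
  · intro T hT
    obtain ⟨C, hC, rfl⟩ := mem_image.mp hT
    have := hmin C hC
    rw [h2]
    omega
  · intro T hT
    obtain ⟨C, hC, rfl⟩ := mem_image.mp hT
    have h6 : (Ioo 0 (n + 2) \ τ C) \ (Ioo 0 (n + 2) \ τ C₀)
        ⊆ (seg n C₀ \ seg n C).image (· + 1) := by
      intro z hz
      simp only [mem_sdiff, not_and, not_not] at hz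
      obtain ⟨k, hk, rfl⟩ := mem_image.mp (hz.2 hz.1.1)
      exact mem_image_of_mem _ (mem_sdiff.mpr ⟨hk, fun h => hz.1.2 (mem_image_of_mem _ h)⟩)
    have h7 := card_sdiff_add_card_inter (seg n C₀) (seg n C)
    have h8 := hs C₀ hC₀ C hC
    have h9 := card_le_card h6
    rw [card_succ] at h9
    omega

end Pool.Agent.FS.AllOpt
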