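import Pool.Agent.FS.AllOpt.Shape
import Pool.Agent.Lib.MP_63ed06_co.Conv

/-!
Transfer of the classification to the four conventions.
-/

namespace Pool.Agent.FS.AllOpt

open Finset Pool.Agent.Lib.MP_63ed06_co

lemma up {n a b d : ℕ} (ha : a ≤ 1) (hb : b ≤ 1) (hn : 1 ≤ n) {G : Finset (Finset (Finset ℕ))}
    (hG : DIntBtw n a b d G) : DIntersecting n (a + b + d) (G.image (· ∪ ends n a b)) ∧
      (G.image (· ∪ ends n a b)).card = G.card := by
  have hE := card_ends (n := n) ha hb hn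
  refine ⟨⟨fun D hD => ?_, fun D hD D' hD' => ?_⟩, card_image_of_injOn fun C hC C' hC' he => ?_⟩
  · obtain ⟨C, hC, rfl⟩ := mem_image.mp hD
    exact chain_union_ends (hG.1 C hC).1
  · obtain ⟨C, hC, rfl⟩ := mem_image.mp hD
    obtain ⟨C', hC', rfl⟩ := mem_image.mp hD'
    have h1 := hG.2 C hC C' hC'
    rw [← inter_union_distrib_right, card_union_of_disjoint
      (disjoint_of_subset_left inter_subset_left ((hG.1 C hC).disj ha hb))]
    omega
  · rw [← union_sdiff_cancel_right ((hG.1 C hC).disj ha hb), he,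
      union_sdiff_cancel_right ((hG.1 C' hC').disj ha hb)]

lemma sizes_ends {n a b s : ℕ} {W : Finset (Finset ℕ)} : (∃ A ∈ W ∪ ends n a b, A.card = s) ↔
    (∃ A ∈ W, A.card = s) ∨ (a ≠ 0 ∧ s = 0) ∨ (b ≠ 0 ∧ s = n) := by
  constructor
  · rintro ⟨A, hA, rfl⟩
    rcases mem_union.mp hA with h | h
    · exact Or.inl ⟨A, h, rfl⟩
    · exact Or.inr ((mem_ends.mp h).imp (fun h => ⟨h.1, by simp [h.2]⟩) fun h => ⟨h.1, by simp [h.2]⟩)
  · rintro (⟨A, hA, h⟩ | ⟨h, h'⟩ | ⟨h, h'⟩)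
    · exact ⟨A, mem_union_left _ hA, h⟩
    · exact ⟨∅, mem_union_right _ (mem_ends.mpr (Or.inl ⟨h, rfl⟩)), by simp [h']⟩
    · exact ⟨Icc 1 n, mem_union_right _ (mem_ends.mpr (Or.inr ⟨h, rfl⟩)), by simp [h']⟩

lemma of_shape {n a b d i j : ℕ} (ha : a ≤ 1) (hb : b ≤ 1) (hn : a + b + d ≤ n)
    (hij : i + j + 2 = a + b + d) {W : Finset (Finset ℕ)} (hW : IsChainBtw n a b W)
    (hs : ∀ s, (∃ A ∈ W, A.card = s) ↔ a ≤ s ∧ s + b ≤ n ∧ (s ≤ i ∨ n ≤ s + j))
    {F : Finset (Finset (Finset ℕ))} (hF : ∀ C, C ∈ F ↔ IsChainBtw n a b C ∧ W ⊆ C) :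
    DIntBtw n a b d F ∧ fub (n - (a + b + d) + 2) ≤ F.card := by
  have hE := card_ends (n := n) ha hb (by omega)
  have hW' := chain_union_ends (a := a) (b := b) hW.1
  have hs' : ∀ s, (∃ A ∈ W ∪ ends n a b, A.card = s) ↔ s ≤ n ∧ (s ≤ i ∨ n ≤ s + j) := fun s => by
    rw [sizes_ends, hs]
    omega
  have h1 : (W ∪ ends n a b).image card = range (i + 1) ∪ Icc (n - j) n := by
    ext s
    rw [mem_image, hs', mem_union, mem_range, mem_Icc]
    omega
  have h2 := card_sizes hW'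
  rw [h1, card_union_of_disjoint (disjoint_left.mpr fun s h h' => by
    rw [mem_range] at h; rw [mem_Icc] at h'; omega), card_range, Nat.card_Icc,
    card_union_of_disjoint (hW.disj ha hb)] at h2
  have hD : DIntBtw n a b d F := ⟨fun C hC => ((hF C).mp hC).1, fun C hC C' hC' =>
    le_trans (by omega) (card_le_card (subset_inter ((hF C).mp hC).2 ((hF C').mp hC').2))⟩
  refine ⟨hD, ?_⟩
  rw [← (up ha hb (by omega) hD).2, show n - (a + b + d) + 2 = n - (i + j) by omega]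
  refine through_ge (by omega) hW' hs' fun C hC hsub => ?_
  have h3 : W ⊆ C \ ends n a b :=
    subset_sdiff.mpr ⟨subset_union_left.trans hsub, hW.disj ha hb⟩
  refine mem_image.mpr ⟨C \ ends n a b, (hF _).mpr ⟨⟨⟨hW.1.1.mono h3,
    fun A hA => hC.2.1 A (mem_sdiff.mp hA).1,
    fun A hA B hB => hC.2.2 A (mem_sdiff.mp hA).1 B (mem_sdiff.mp hB).1⟩, fun A hA =>
    (size_iff ha hb (hC.2.1 A (mem_sdiff.mp hA).1)).mpr (mem_sdiff.mp hA).2⟩, h3⟩,
    sdiff_union_of_subset (subset_union_right.trans hsub)⟩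

theorem classify : ∃ K : ℝ, 1 ≤ K ∧ ∀ a b n d : ℕ, a ≤ 1 → b ≤ 1 → 1 ≤ d → 2 ≤ a + b + d →
    a + b + d + 8 ≤ n → K ^ 2 * (n + 2) ≤ ((n : ℝ) - ((a + b + d : ℕ) : ℝ) + 2) ^ 2 →
    ∀ F : Finset (Finset (Finset ℕ)), OptimalBtw n a b d F ↔
      ∃ (W : Finset (Finset ℕ)) (i j : ℕ), IsChainBtw n a b W ∧ i + j + 2 = a + b + d ∧
        (∀ s, (∃ A ∈ W, A.card = s) ↔ a ≤ s ∧ s + b ≤ n ∧ (s ≤ i ∨ n ≤ s + j)) ∧
        ∀ C, C ∈ F ↔ IsChainBtw n a b C ∧ W ⊆ C := by
  classical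
  obtain ⟨K₁, hK₁, h₁⟩ := large_shape
  obtain ⟨K₂, hK₂, h₂⟩ := upper_sqrt
  refine ⟨K₁ * K₂, one_le_mul_of_one_le_of_one_le hK₁ hK₂, fun a b n d ha hb hd h2 h8 hM F => ?_⟩
  have hM₁ := le_trans (mul_le_mul_of_nonneg_right (pow_le_pow_left₀ (by positivity)
    (le_mul_of_one_le_right (by positivity) hK₂) 2) (by positivity)) hM
  have hM₂ := le_trans (mul_le_mul_of_nonneg_right (pow_le_pow_left₀ (by positivity)
    (le_mul_of_one_le_left (by positivity) hK₁) 2) (by positivity)) hM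
  have hE := card_ends (n := n) ha hb (by omega)
  have upper : ∀ G, DIntBtw n a b d G → G.card ≤ fub (n - (a + b + d) + 2) := fun G hG => by
    obtain ⟨u1, u2⟩ := up ha hb (by omega) hG
    exact u2 ▸ h₂ n _ (by omega) hM₂ _ u1
  constructor
  · intro hF
    obtain ⟨F₀, hF₀, m₀⟩ := btw_optimal (n := n) ha hb hd (by omega) ⟨star_dint (by omega),
      fun G hG => (h₂ n _ (by omega) hM₂ G hG).trans (star_card h2 (by omega))⟩
    have low : fub (n - (a + b + d) + 2) ≤ F.card := by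
      refine le_trans ?_ (hF.2 F₀ hF₀.1)
      rw [← (up ha hb (by omega) hF₀.1).2]
      refine (star_card h2 (by omega)).trans (card_le_card fun C hC => ?_)
      have h4 := (star_dint (by omega : a + b + d ≤ n)).2 C hC C hC
      rw [inter_self] at h4
      obtain ⟨c1, c2, c3⟩ := mem_star.mp hC
      have h5 : ends n a b ⊆ C := fun A hA => by
        rcases mem_ends.mp hA with ⟨-, rfl⟩ | ⟨-, rfl⟩
        · simpa using c3 0 (by omega)
        · exact c2
      have h6 := le_card_sdiff (ends n a b) C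
      refine mem_image.mpr ⟨C \ ends n a b, (m₀ _).mpr ⟨⟨⟨card_pos.mp (by omega),
        fun A hA => c1.2.1 A (mem_sdiff.mp hA).1,
        fun A hA B hB => c1.2.2 A (mem_sdiff.mp hA).1 B (mem_sdiff.mp hB).1⟩, fun A hA =>
        (size_iff ha hb (c1.2.1 A (mem_sdiff.mp hA).1)).mpr (mem_sdiff.mp hA).2⟩,
        fun h0 => mem_sdiff.mpr ⟨c2, ?_⟩, fun j hj hj' => mem_sdiff.mpr ⟨c3 j hj', ?_⟩⟩,
        sdiff_union_of_subset h5⟩
      · rw [← size_iff ha hb Subset.rfl, Nat.card_Icc]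
        omega
      · rw [← size_iff ha hb (icc_sub (by omega)), Nat.card_Icc]
        omega
    obtain ⟨u1, u2⟩ := up ha hb (by omega) hF.1
    obtain ⟨W', hW', w1, -, i, j, hij, w2⟩ := h₁ n _ (by omega) h8 hM₁ _ u1 (u2 ▸ low)
    obtain ⟨W, hW, rfl⟩ := mem_image.mp hW'
    have hc := hF.1.1 W hW
    rw [card_union_of_disjoint (hc.disj ha hb)] at w1
    have w3 : ∀ C ∈ F, W ⊆ C := fun C hC => by
      rw [← eq_of_subset_of_card_le inter_subset_left
        (le_trans (by omega) (hF.1.2 W hW C hC) : W.card ≤ (W ∩ C).card)]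
      exact inter_subset_right
    refine ⟨W, i, j, hc, hij, fun s => ?_, fun C => ⟨fun hC => ⟨hF.1.1 C hC, w3 C hC⟩,
      fun hC => ?_⟩⟩
    · have h4 := w2 s
      rw [sizes_ends] at h4
      constructor
      · rintro ⟨A, hA, rfl⟩
        exact ⟨(hc.2 A hA).1, (hc.2 A hA).2, (h4.mp (Or.inl ⟨A, hA, rfl⟩)).2⟩
      · intro h5
        rcases h4.mpr ⟨by omega, h5.2.2⟩ with h6 | h6
        · exact h6
        · omega
    · by_contra hno
      have w4 : ∀ E ∈ insert C F, W ⊆ E := fun E hE => by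
        rcases mem_insert.mp hE with rfl | hE
        exacts [hC.2, w3 E hE]
      have h4 := hF.2 (insert C F) ⟨fun E hE => by
        rcases mem_insert.mp hE with rfl | hE
        exacts [hC.1, hF.1.1 E hE], fun E hE E' hE' =>
        le_trans (by omega) (card_le_card (subset_inter (w4 E hE) (w4 E' hE')))⟩
      rw [card_insert_of_notMem hno] at h4
      omega
  · rintro ⟨W, i, j, hW, hij, hs, hF⟩
    obtain ⟨h3, h4⟩ := of_shape ha hb (by omega) hij hW hs hF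
    exact ⟨h3, fun G hG => (upper G hG).trans h4⟩

end Pool.Agent.FS.AllOpt
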