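import Pool.Agent.FS.AllOpt.Core

/-!
The shape of the common sets, and the number of chains through sets of that shape.
-/

namespace Pool.Agent.FS.AllOpt

open Finset Pool.Agent.Lib.MP_63ed06_co

lemma sub_of_le {n : ℕ} {W : Finset (Finset ℕ)} (h : IsChainIn n W) {A B : Finset ℕ} (hA : A ∈ W)
    (hB : B ∈ W) (hc : A.card ≤ B.card) : A ⊆ B := by
  rcases h.2.2 A hA B hB with h1 | h1
  · exact h1
  · exact (eq_of_subset_of_card_le h1 hc).ge

lemma card_sizes {n : ℕ} {W : Finset (Finset ℕ)} (h : IsChainIn n W) :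
    (W.image card).card = W.card :=
  card_image_of_injOn fun _ hA _ hB e =>
    Subset.antisymm (sub_of_le h hA hB e.le) (sub_of_le h hB hA e.ge)

lemma size_le {n : ℕ} {W : Finset (Finset ℕ)} (h : IsChainIn n W) {A : Finset ℕ} (hA : A ∈ W) :
    A.card ≤ n := by simpa using card_le_card (h.2.1 A hA)

theorem large_shape : ∃ K : ℝ, 1 ≤ K ∧ ∀ n d : ℕ, 1 ≤ d → d + 8 ≤ n →
    K ^ 2 * (n + 2) ≤ ((n : ℝ) - d + 2) ^ 2 → ∀ G, DIntersecting n d G →
    fub (n - d + 2) ≤ G.card → ∃ W ∈ G, W.card = d ∧ (∀ C ∈ G, W ⊆ C) ∧ ∃ i j, i + j + 2 = d ∧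
      ∀ s, (∃ A ∈ W, A.card = s) ↔ s ≤ n ∧ (s ≤ i ∨ n ≤ s + j) := by
  classical
  obtain ⟨K, hK, h⟩ := small_member
  refine ⟨K, hK, fun n d hd1 hd8 hM G hG hc => ?_⟩
  obtain ⟨W, hW, w1, w2⟩ := h n d hd1 hd8 hM G hG hc
  have w3 : ∀ C ∈ G, W ⊆ C := fun C hC => by
    rw [← eq_of_subset_of_card_le inter_subset_left (w1.le.trans (hG.2 W hW C hC))]
    exact inter_subset_right
  have key : ∀ E, (∀ C, IsChainIn n C → IsChainIn n (insert E C)) → E ∈ W := fun E hE => by
    by_contra hno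
    have h2 := two_le hG.1 W w3 E hno hE
    have h3 := fub_succ_ge (n - d + 1)
    have h4 := Nat.mul_lt_mul_of_pos_right (show 2 < n - d + 1 + 1 by omega) (fub_pos (n - d + 1))
    rw [show n - d + 1 + 1 = n - d + 2 from rfl] at h3 h4
    rw [w1, show n + 1 - d = n - d + 1 by omega] at h2
    omega
  have b0 : ∅ ∈ W := key _ fun C hC => ⟨insert_nonempty _ _, by simpa using hC.2.1,
    fun A hA B hB => by
      rcases mem_insert.mp hA with rfl | hA
      · exact Or.inl (empty_subset _)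
      rcases mem_insert.mp hB with rfl | hB
      · exact Or.inr (empty_subset _)
      exact hC.2.2 A hA B hB⟩
  have b1 : Icc 1 n ∈ W := key _ fun C hC => IsChainIn.insert_top hC.2.1 hC.2.2
  have s0 : 0 ∈ W.image card := mem_image.mpr ⟨_, b0, rfl⟩
  have s1 : n ∈ W.image card := mem_image.mpr ⟨_, b1, by simp⟩
  have s2 : W.image card ⊆ range (n + 1) := fun s hs => by
    obtain ⟨A, hA, rfl⟩ := mem_image.mp hs
    exact mem_range.mpr (Nat.lt_succ_of_le (size_le (hG.1 W hW) hA))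
  obtain ⟨u, hu⟩ := convex_eq (K := range (n + 1) \ W.image card) (m := n - d)
    (by rw [card_sdiff_of_subset s2, card_sizes (hG.1 W hW), card_range]; omega)
    fun u hu v hv s hus hsv => by
      rw [mem_sdiff, mem_range] at hu hv ⊢
      exact ⟨by omega, w2 u s v hus hsv (by omega) hu.2 hv.2⟩
  have m : ∀ s, (s < n + 1 ∧ s ∉ W.image card) ↔ u ≤ s ∧ s < u + (n - d) + 1 := fun s => by
    rw [← mem_Ico, ← hu, mem_sdiff, mem_range]
  have m0 := m 0
  have m1 := m n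
  have m2 := (m (u + (n - d))).mpr ⟨by omega, by omega⟩
  simp only [s0, s1, not_true, and_false, false_iff] at m0 m1
  refine ⟨W, hW, w1, w3, u - 1, n - (u + (n - d) + 1), by omega, fun s => ?_⟩
  rw [← mem_image]
  have m3 := m s
  constructor
  · intro hs
    have := mem_range.mp (s2 hs)
    simp only [hs, not_true, and_false, false_iff] at m3
    omega
  · intro hs
    by_contra hno
    have := m3.mp ⟨by omega, hno⟩
    omega

theorem through_ge {n i j : ℕ} (hn : i + j ≤ n) {W : Finset (Finset ℕ)} (hW : IsChainIn n W)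
    (hs : ∀ s, (∃ A ∈ W, A.card = s) ↔ s ≤ n ∧ (s ≤ i ∨ n ≤ s + j))
    {Φ : Finset (Finset (Finset ℕ))} (hΦ : ∀ C, IsChainIn n C → W ⊆ C → C ∈ Φ) :
    fub (n - (i + j)) ≤ Φ.card := by
  classical
  obtain ⟨A, hA, a1⟩ := (hs i).mpr ⟨by omega, Or.inl le_rfl⟩
  obtain ⟨B, hB, b1⟩ := (hs (n - j)).mpr ⟨by omega, Or.inr (by omega)⟩
  have side : ∀ E ∈ W, E ⊆ A ∨ B ⊆ E := fun E hE =>
    ((hs _).mp ⟨E, hE, rfl⟩).2.imp (fun h => sub_of_le hW hE hA (by omega))
      fun h => sub_of_le hW hB hE (by omega)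
  rw [← card_ch (n - (i + j)) A B (sub_of_le hW hA hB (by omega)) (by omega)]
  have back : ∀ C ∈ ch A B, ∀ C' ∈ ch A B, C ∪ W = C' ∪ W → C ⊆ C' := fun C hC C' hC' e E hE => by
    obtain ⟨-, -, h5, h6, -⟩ := mem_ch.mp hC
    obtain ⟨h3, h4, -⟩ := mem_ch.mp hC'
    rcases mem_union.mp (e ▸ mem_union_left W hE : E ∈ C' ∪ W) with h | h
    · exact h
    · rcases side E h with h' | h'
      · exact Subset.antisymm h' (h5 E hE) ▸ h3
      · exact Subset.antisymm (h6 E hE) h' ▸ h4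
  refine card_le_card_of_injOn (fun C => C ∪ W) (fun C hC => ?_) fun C hC C' hC' e =>
    Subset.antisymm (back C hC C' hC' e) (back C' hC' C hC e.symm)
  obtain ⟨h3, h4, h5, h6, h7⟩ := mem_ch.mp hC
  have mix : ∀ E ∈ C, ∀ E' ∈ W, E ⊆ E' ∨ E' ⊆ E := fun E hE E' hE' =>
    ((side E' hE').imp (fun h => h.trans (h5 E hE)) fun h => (h6 E hE).trans h).symm
  refine hΦ _ ⟨⟨_, mem_union_left _ h3⟩, fun E hE => ?_, fun E hE E' hE' => ?_⟩ subset_union_right
  · rcases mem_union.mp hE with h | h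
    · exact (h6 E h).trans (hW.2.1 B hB)
    · exact hW.2.1 E h
  · rcases mem_union.mp hE with h | h <;> rcases mem_union.mp hE' with h' | h'
    · exact h7 E h E' h'
    · exact mix E h E' h'
    · exact (mix E' h' E h).symm
    · exact hW.2.2 E h E' h'

end Pool.Agent.FS.AllOpt
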